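import Pool.Agent.Lib.MP_81d707_al.Proof

/-!
# MP_81d707_al : finite semigroups containing `L` or `R` have no finite basis of quasi-identities

Full (positive) answer to the question, for all four classes at once: every finite semigroup that
contains the three element monoid `L` (or its dual `R`) as a subsemigroup has no finite basis
for its quasi-identities.
-/

universe u

open Pool.Agent.Lib.MP_81d707_al

namespace Pool.Agent.Results.MP_81d707_al.Main

/-- **Main result.**  Every finite semigroup containing the three element monoid `L`, or its
dual `R`, as a subsemigroup has no finite basis for its quasi-identities. -/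
theorem result (S : Type u) [Semigroup S] [Finite S]
    (h : (∃ f : L →ₙ* S, Function.Injective f) ∨ (∃ f : Lᵐᵒᵖ →ₙ* S, Function.Injective f)) :
    ¬ HasFiniteQuasiIdentityBasis S := by
  rcases h with ⟨f, hf⟩ | ⟨f, hf⟩
  · exact not_finite_of_L S f hf
  · intro hS
    let φ : L →ₙ* Sᵐᵒᵖ :=
      { toFun := fun x => MulOpposite.op (f (MulOpposite.op x))
        map_mul' := by
          intro x y
          rw [MulOpposite.op_mul, map_mul, MulOpposite.op_mul] }
    have : Finite Sᵐᵒᵖ := Finite.of_equiv S MulOpposite.opEquiv
    refine not_finite_of_L Sᵐᵒᵖ φ ?_ (hasFinite_op S hS)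
    intro x y hxy
    exact MulOpposite.op_injective (hf (MulOpposite.op_injective hxy))

end Pool.Agent.Results.MP_81d707_al.Main
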